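import Pool.Agent.N874.PP.Lat
import Pool.Agent.Y164.PS.Sym

/-!
# Quadratic reciprocity for squarefree polynomials over a finite field (helper368)

The number of the primes at which the Hilbert symbol of `d` and `e` is `-1` is even, if `d` is monic
of even degree. The symbol `L` with values in `ZMod 2` comes from `Pool.Agent.Y164.PS.Sym`.
-/

set_option autoImplicit false
set_option linter.all false

open Polynomial

namespace Pool.Agent.N368.PP

open Pool.Agent.H341R2.Sharp Pool.Agent.Y164.PS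

theorem coprime_C' {k : Type} [Field k] {c : k} (hc : c ≠ 0) (g : k[X]) : IsCoprime g (C c) :=
  ⟨0, C c⁻¹, by rw [← C_mul, inv_mul_cancel₀ hc, C_1, zero_mul, zero_add]⟩

section sym

variable {k : Type} [Field k] [Fintype k] [DecidableEq k]

theorem lam_mul_right {f g g' : k[X]} (hg : g ≠ 0) (hg' : g' ≠ 0) :
    lam f (g * g') = lam f g * lam f g' := by
  unfold lam
  rw [natDegree_mul hg hg', resultant_mul_left _ _ _ _ le_rfl, map_mul]

theorem L_mul_right {f g g' : k[X]} (hg : g ≠ 0) (hg' : g' ≠ 0) (h : IsCoprime f g)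
    (h' : IsCoprime f g') : L f (g * g') = L f g + L f g' := by
  have h1 : lam f g ≠ 0 := fun hh => (lam_eq_zero_iff hg).1 hh h
  have h2 : lam f g' ≠ 0 := fun hh => (lam_eq_zero_iff hg').1 hh h'
  rw [L, L, L, lam_mul_right hg hg']
  rcases lam_mem f g with e | e | e <;> rcases lam_mem f g' with e' | e' | e' <;>
    first
    | exact absurd e h1
    | exact absurd e' h2
    | (rw [e, e']; norm_num)
  decide

theorem L_one_right (f : k[X]) : L f 1 = 0 := by
  have : resultant (1 : k[X]) f 0 f.natDegree = 1 := by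
    rw [resultant_zero_left_deg]
    simp
  rw [L, lam, natDegree_one, this]
  simp

theorem L_prod_right {α : Type*} {s : Finset α} {g : α → k[X]} {f : k[X]}
    (hg : ∀ a ∈ s, g a ≠ 0) (h : ∀ a ∈ s, IsCoprime f (g a)) :
    L f (∏ a ∈ s, g a) = ∑ a ∈ s, L f (g a) := by
  classical
  induction s using Finset.induction_on with
  | empty => rw [Finset.prod_empty, Finset.sum_empty, L_one_right]
  | insert a s ha ih =>
    rw [Finset.prod_insert ha, Finset.sum_insert ha, L_mul_right (hg a (by simp))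
      (Finset.prod_ne_zero_iff.2 fun b hb => hg b (by simp [hb])) (h a (by simp))
      (IsCoprime.prod_right fun b hb => h b (by simp [hb])),
      ih (fun b hb => hg b (by simp [hb])) fun b hb => h b (by simp [hb])]

/-- Reciprocity. -/
theorem L_recip {f g : k[X]} (hf : f ≠ 0) (hg : g ≠ 0) (h : IsCoprime f g) :
    L f g + L g f = (f.natDegree : F2) * (g.natDegree : F2) * ch (-1 : k) := by
  have h1 : lam f g ≠ 0 := fun hh => (lam_eq_zero_iff hg).1 hh h
  have h2 : lam g f ≠ 0 := fun hh => (lam_eq_zero_iff hf).1 hh h.symm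
  have h3 : lam f g = quadraticChar k (-1) ^ (g.natDegree * f.natDegree) * lam g f := by
    unfold lam
    rw [resultant_comm, map_mul, map_pow]
  have hF : (f.natDegree : F2) * (g.natDegree : F2) = ((g.natDegree * f.natDegree : ℕ) : F2) := by
    push_cast; ring
  rw [L, L, ch, h3, hF]
  rcases quadraticChar_dichotomy (F := k) (a := -1) (by simp) with e | e
  · rw [e, one_pow, one_mul]
    rcases lam_mem g f with e' | e' | e'
    · exact absurd e' h2
    · rw [e']; norm_num
    · rw [e']; norm_num; decide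
  · rw [e]
    rcases Nat.even_or_odd (g.natDegree * f.natDegree) with he | ho
    · rw [he.neg_one_pow, (ZMod.natCast_eq_zero_iff_even).2 he, one_mul]
      rcases lam_mem g f with e' | e' | e'
      · exact absurd e' h2
      · rw [e']; norm_num
      · rw [e']; norm_num; decide
    · rw [ho.neg_one_pow, (ZMod.natCast_eq_one_iff_odd).2 ho]
      rcases lam_mem g f with e' | e' | e'
      · exact absurd e' h2
      · rw [e']; norm_num
      · rw [e']; norm_num

end sym

section facts

open scoped Classical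

variable {k : Type} [Field k]

open UniqueFactorizationMonoid

/-- The monic irreducible factors. -/
noncomputable def T (h : k[X]) : Finset k[X] := (normalizedFactors h).toFinset

theorem mem_T {h : k[X]} (h0 : h ≠ 0) {P : k[X]} :
    P ∈ T h ↔ P.Monic ∧ Irreducible P ∧ P ∣ h := by
  rw [T, Multiset.mem_toFinset, mem_normalizedFactors_iff' h0]
  constructor
  · rintro ⟨h1, h2, h3⟩
    refine ⟨?_, h1, h3⟩
    rw [← h2]
    exact monic_normalize h1.ne_zero
  · rintro ⟨h1, h2, h3⟩
    exact ⟨h2, h1.normalize_eq_self, h3⟩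

theorem prod_T {h : k[X]} (hm : h.Monic) (hs : Squarefree h) : ∏ P ∈ T h, P = h := by
  have h1 := (squarefree_iff_nodup_normalizedFactors hs.ne_zero).1 hs
  have h2 := prod_normalizedFactors_eq hs.ne_zero
  rw [hm.normalize_eq_self] at h2
  rw [T, Finset.prod, Multiset.toFinset_val, h1.dedup, Multiset.map_id', h2]

theorem coprime_C_mul {c : k} (hc : c ≠ 0) {x y : k[X]} (h : IsCoprime x y) :
    IsCoprime x (C c * y) := (coprime_C' hc x).mul_right h

theorem split {d e : k[X]} (hdm : d.Monic) (hds : Squarefree d) (he0 : e ≠ 0)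
    (hes : Squarefree e) : ∃ (g e1 e2 : k[X]) (c : k), c ≠ 0 ∧ g.Monic ∧ e1.Monic ∧ e2.Monic ∧
      d = g * e1 ∧ e = C c * g * e2 ∧ IsCoprime g e1 ∧ IsCoprime g e2 ∧ IsCoprime e1 e2 ∧
      Squarefree g ∧ Squarefree e1 ∧ Squarefree e2 := by
  have hg0 : gcd d e ≠ 0 := fun h => he0 ((gcd_eq_zero_iff _ _).1 h).2
  have hgm : (gcd d e).Monic := by
    rw [← normalize_gcd]
    exact monic_normalize hg0
  obtain ⟨e1, h1⟩ := gcd_dvd_left d e
  obtain ⟨e2, h2⟩ := gcd_dvd_right d e
  have he1m : e1.Monic := by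
    have := hdm
    rw [h1] at this
    exact hgm.of_mul_monic_left this
  have he20 : e2 ≠ 0 := by
    rintro rfl
    rw [mul_zero] at h2
    exact he0 h2
  have hl : e2.leadingCoeff ≠ 0 := leadingCoeff_ne_zero.2 he20
  have hl' : e2.leadingCoeff⁻¹ ≠ 0 := inv_ne_zero hl
  have hC : C e2.leadingCoeff * C e2.leadingCoeff⁻¹ = (1 : k[X]) := by
    rw [← C_mul, mul_inv_cancel₀ hl, C_1]
  have hd' := hds
  rw [h1] at hd'
  have he' := hes
  rw [h2] at he'
  have hu : gcd e1 e2 = 1 := by
    have h3 := gcd_mul_left (gcd d e) e1 e2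
    rw [← h1, ← h2, normalize_gcd] at h3
    have h4 : gcd d e * gcd e1 e2 = gcd d e * 1 := by rw [← h3, mul_one]
    exact mul_left_cancel₀ hg0 h4
  refine ⟨gcd d e, e1, C e2.leadingCoeff⁻¹ * e2, e2.leadingCoeff, hl, hgm, he1m, ?_, h1, ?_,
    ?_, ?_, ?_, ?_, ?_, ?_⟩
  · rw [mul_comm]
    exact monic_mul_leadingCoeff_inv he20
  · calc e = (C e2.leadingCoeff * C e2.leadingCoeff⁻¹) * (gcd d e * e2) := by
          rw [hC, one_mul, ← h2]
      _ = _ := by ring
  · exact (squarefree_mul_iff.1 hd').1.isCoprime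
  · exact coprime_C_mul hl' (squarefree_mul_iff.1 he').1.isCoprime
  · exact coprime_C_mul hl' ((gcd_isUnit_iff _ _).1 (by rw [hu]; exact isUnit_one))
  · exact (squarefree_mul_iff.1 hd').2.1
  · exact (squarefree_mul_iff.1 hd').2.2
  · have h5 := (squarefree_mul_iff.1 he').2.2
    refine h5.squarefree_of_dvd ?_
    refine ⟨C e2.leadingCoeff, ?_⟩
    calc e2 = (C e2.leadingCoeff * C e2.leadingCoeff⁻¹) * e2 := by rw [hC, one_mul]
      _ = _ := by ring

end facts

theorem hp : Pool.Agent.N874.PP.S_HP := by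
  intro k _ _ h2 d e hdm hds hde he0 hes
  classical
  haveI : Fintype k := Fintype.ofFinite k
  have hk : ringChar k ≠ 2 := by
    intro h
    apply h2
    have := ringChar.Nat.cast_ringChar (R := k)
    rw [h] at this
    exact_mod_cast this
  obtain ⟨g, e1, e2, c, hc, hgm, he1m, he2m, rfl, rfl, hge1, hge2, he12, hgs, he1s, he2s⟩ :=
    split hdm hds he0 hes
  have hg0 := hgm.ne_zero
  have he10 := he1m.ne_zero
  have he20 := he2m.ne_zero
  -- coprimality and divisibility
  have hcd : ∀ {P x y : k[X]}, Irreducible P → IsCoprime x y → P ∣ x → ¬ P ∣ y :=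
    fun hP hxy h1 h2 => hP.not_isUnit (hxy.isUnit_of_dvd' h1 h2)
  have hCu : ∀ {P x : k[X]} {c : k}, c ≠ 0 → (P ∣ C c * x ↔ P ∣ x) := by
    intro P x c hc
    exact (isUnit_C.2 (isUnit_iff_ne_zero.2 hc)).dvd_mul_left
  -- the three cases
  have c1 : ∀ P ∈ T e1, (N874.PP.HBad P (g * e1) (C c * g * e2) ↔ L (C c * g * e2) P = 1) := by
    intro P hP
    obtain ⟨hPm, hPi, hPd⟩ := (mem_T he10).1 hP
    have n1 : ¬ P ∣ g := hcd hPi hge1.symm hPd
    have n2 : ¬ P ∣ e2 := hcd hPi he12 hPd
    have n3 : ¬ P ∣ C c * g * e2 := by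
      rw [mul_assoc, hCu hc]
      intro h
      rcases hPi.prime.dvd_or_dvd h with h | h
      · exact n1 h
      · exact n2 h
    have h1 := L_eq_zero_iff hk hPm hPi n3
    have h2 : ∀ x : F2, x = 1 ↔ ¬ x = 0 := by decide
    rw [h2, h1, not_exists]
    constructor
    · rintro (h | h | h)
      · exact h.2.2
      · exact absurd h.2.1 n3
      · obtain ⟨d', e', h3, h4, h5⟩ := h
        exact absurd ⟨e', h4⟩ n3
    · intro h
      exact Or.inl ⟨Dvd.dvd.mul_left hPd g, n3, h⟩
  have c2 : ∀ P ∈ T e2, (N874.PP.HBad P (g * e1) (C c * g * e2) ↔ L (g * e1) P = 1) := by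
    intro P hP
    obtain ⟨hPm, hPi, hPd⟩ := (mem_T he20).1 hP
    have n1 : ¬ P ∣ g := hcd hPi hge2.symm hPd
    have n2 : ¬ P ∣ e1 := hcd hPi he12.symm hPd
    have n3 : ¬ P ∣ g * e1 := by
      intro h
      rcases hPi.prime.dvd_or_dvd h with h | h
      · exact n1 h
      · exact n2 h
    have h1 := L_eq_zero_iff hk hPm hPi n3
    have h2 : ∀ x : F2, x = 1 ↔ ¬ x = 0 := by decide
    rw [h2, h1, not_exists]
    constructor
    · rintro (h | h | h)
      · exact absurd h.1 n3
      · exact h.2.2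
      · obtain ⟨d', e', h3, h4, h5⟩ := h
        exact absurd ⟨d', h3⟩ n3
    · intro h
      exact Or.inr (Or.inl ⟨n3, Dvd.dvd.mul_left hPd _, h⟩)
  have c3 : ∀ P ∈ T g, (N874.PP.HBad P (g * e1) (C c * g * e2) ↔
      L (C (-c) * e1 * e2) P = 1) := by
    intro P hP
    obtain ⟨hPm, hPi, hPd⟩ := (mem_T hg0).1 hP
    have n1 : ¬ P ∣ e1 := hcd hPi hge1 hPd
    have n2 : ¬ P ∣ e2 := hcd hPi hge2 hPd
    have n3 : ¬ P ∣ C (-c) * e1 * e2 := by
      rw [mul_assoc, hCu (neg_ne_zero.2 hc)]
      intro h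
      rcases hPi.prime.dvd_or_dvd h with h | h
      · exact n1 h
      · exact n2 h
    have h1 := L_eq_zero_iff hk hPm hPi n3
    have h2 : ∀ x : F2, x = 1 ↔ ¬ x = 0 := by decide
    rw [h2, h1]
    obtain ⟨g', rfl⟩ := hPd
    have hP0 := hPi.ne_zero
    have n4 : ¬ P ∣ g' := by
      intro h
      obtain ⟨g'', rfl⟩ := h
      exact hPi.not_isUnit (hgs P ⟨g'', by ring⟩)
    -- an inverse of g' modulo P
    obtain ⟨u, w, huw⟩ : IsCoprime g' P := coprime_of_not_dvd hPi n4
    have hN : N874.PP.HBad P (P * g' * e1) (C c * (P * g') * e2) ↔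
        ∀ z, ¬ P ∣ z ^ 2 + (g' * e1) * (C c * g' * e2) := by
      constructor
      · rintro (h | h | h)
        · exact absurd ⟨C c * g' * e2, by ring⟩ h.2.1
        · exact absurd ⟨g' * e1, by ring⟩ h.1
        · obtain ⟨d', e', h3, h4, h5⟩ := h
          have h3' : g' * e1 = d' := mul_left_cancel₀ hP0 (by rw [← h3]; ring)
          have h4' : C c * g' * e2 = e' := mul_left_cancel₀ hP0 (by rw [← h4]; ring)
          rw [h3', h4']
          exact h5
      · intro h
        exact Or.inr (Or.inr ⟨g' * e1, C c * g' * e2, by ring, by ring, h⟩)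
    rw [hN]
    constructor
    · rintro h ⟨z, hz⟩
      apply h (g' * z)
      have : (g' * z) ^ 2 + (g' * e1) * (C c * g' * e2) =
          g' ^ 2 * (z ^ 2 - C (-c) * e1 * e2) := by
        rw [C_neg]; ring
      rw [this]
      exact Dvd.dvd.mul_left hz _
    · intro h z hz
      apply h
      refine ⟨u * z, ?_⟩
      have h6 : (u * z) ^ 2 - C (-c) * e1 * e2 =
          u ^ 2 * (z ^ 2 + (g' * e1) * (C c * g' * e2)) +
            P * (C c * e1 * e2 * (w * (1 + u * g'))) := by
        have h7 : P * w = 1 - u * g' := by rw [← huw]; ring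
        calc (u * z) ^ 2 - C (-c) * e1 * e2
            = u ^ 2 * (z ^ 2 + (g' * e1) * (C c * g' * e2)) +
              (1 - u * g') * (C c * e1 * e2 * (1 + u * g')) := by rw [C_neg]; ring
          _ = _ := by rw [← h7]; ring
      rw [h6]
      exact dvd_add (Dvd.dvd.mul_left hz _) ⟨_, rfl⟩
  -- the set
  have hset : {P : k[X] | P.Monic ∧ Irreducible P ∧ N874.PP.HBad P (g * e1) (C c * g * e2)} =
      (((T e1 ∪ T e2) ∪ T g).filter
        fun P => N874.PP.HBad P (g * e1) (C c * g * e2) : Finset k[X]) := by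
    ext P
    simp only [Set.mem_setOf_eq, Finset.coe_filter, Finset.mem_union, mem_T he10, mem_T he20,
      mem_T hg0]
    constructor
    · rintro ⟨h1, h2, h3⟩
      refine ⟨?_, h3⟩
      have h4 : P ∣ g * e1 ∨ P ∣ C c * g * e2 := by
        rcases h3 with h | h | h
        · exact Or.inl h.1
        · exact Or.inr h.2.1
        · obtain ⟨d', e', h3, h4, h5⟩ := h
          exact Or.inl ⟨d', h3⟩
      rcases h4 with h | h
      · rcases h2.prime.dvd_or_dvd h with h | h
        · exact Or.inr ⟨h1, h2, h⟩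
        · exact Or.inl (Or.inl ⟨h1, h2, h⟩)
      · rw [mul_assoc, hCu hc] at h
        rcases h2.prime.dvd_or_dvd h with h | h
        · exact Or.inr ⟨h1, h2, h⟩
        · exact Or.inl (Or.inr ⟨h1, h2, h⟩)
    · rintro ⟨(⟨h1, h2, _⟩ | ⟨h1, h2, _⟩) | ⟨h1, h2, _⟩, h⟩ <;> exact ⟨h1, h2, h⟩
  rw [hset]
  refine ⟨Finset.finite_toSet _, ?_⟩
  rw [Set.ncard_coe_finset, ← ZMod.natCast_eq_zero_iff_even, Finset.card_filter]
  have hdisj : ∀ {x y : k[X]}, x ≠ 0 → y ≠ 0 → IsCoprime x y → Disjoint (T x) (T y) := by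
    intro x y hx hy hxy
    rw [Finset.disjoint_left]
    intro P h1 h2
    obtain ⟨-, h3, h4⟩ := (mem_T hx).1 h1
    obtain ⟨-, -, h5⟩ := (mem_T hy).1 h2
    exact hcd h3 hxy h4 h5
  have hd2 : Disjoint (T e1 ∪ T e2) (T g) := by
    rw [Finset.disjoint_union_left]
    exact ⟨hdisj he10 hg0 hge1.symm, hdisj he20 hg0 hge2.symm⟩
  push_cast
  rw [Finset.sum_union hd2, Finset.sum_union (hdisj he10 he20 he12)]
  have key : ∀ (x f : k[X]), x.Monic → Squarefree x → IsCoprime f x →
      (∀ P ∈ T x, (N874.PP.HBad P (g * e1) (C c * g * e2) ↔ L f P = 1)) →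
      ∑ P ∈ T x, (if N874.PP.HBad P (g * e1) (C c * g * e2) then (1 : F2) else 0) = L f x := by
    intro x f hx hxs hfx h
    conv_rhs => rw [← prod_T hx hxs]
    rw [L_prod_right]
    · refine Finset.sum_congr rfl fun P hP => ?_
      have h2 : ∀ x : F2, x = 1 ∨ x = 0 := by decide
      rcases h2 (L f P) with h3 | h3
      · rw [if_pos ((h P hP).2 h3), h3]
      · rw [if_neg (fun hh => ?_), h3]
        rw [(h P hP).1 hh] at h3
        exact absurd h3 (by decide)
    · intro P hP
      exact ((mem_T hx.ne_zero).1 hP).2.1.ne_zero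
    · intro P hP
      exact hfx.of_isCoprime_of_dvd_right ((mem_T hx.ne_zero).1 hP).2.2
  have hnc : -c ≠ 0 := neg_ne_zero.2 hc
  have k1 : IsCoprime (C c * g) e1 := (coprime_C hc _).mul_left hge1
  have k2 : IsCoprime (C (-c) * e1) g := (coprime_C hnc _).mul_left hge1.symm
  have hCc : (C c : k[X]) ≠ 0 := C_ne_zero.2 hc
  have hCc' : (C (-c) : k[X]) ≠ 0 := C_ne_zero.2 hnc
  rw [key e1 _ he1m he1s (k1.mul_left he12.symm) c1,
    key e2 _ he2m he2s (hge2.mul_left he12) c2,
    key g _ hgm hgs (k2.mul_left hge2.symm) c3,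
    L_mul_left he10 (mul_ne_zero hCc hg0) he20 k1 he12.symm,
    L_mul_left he10 hCc hg0 (coprime_C hc _) hge1,
    L_mul_left he20 hg0 he10 hge2 he12,
    L_mul_left hg0 (mul_ne_zero hCc' he10) he20 k2 hge2.symm,
    L_mul_left hg0 hCc' he10 (coprime_C hnc _) hge1.symm,
    L_C hc, L_C hnc]
  have r1 := L_recip hg0 he10 hge1
  have r2 := L_recip hg0 he20 hge2
  have r3 := L_recip he10 he20 he12
  have hch : ch (-c) = ch (-1 : k) + ch c := by
    rw [← ch_mul (by simp) hc, neg_one_mul]
  have hdeg : (e1.natDegree : F2) = (g.natDegree : F2) := by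
    rw [natDegree_mul hg0 he10] at hde
    have h1 := (ZMod.natCast_eq_zero_iff_even).2 hde
    push_cast at h1
    have h3 : ∀ x y : F2, x + y = 0 → y = x := by decide
    exact h3 _ _ h1
  rw [hch, hdeg]
  rw [hdeg] at r1 r3
  generalize L g e1 = a1 at *
  generalize L e1 g = a2 at *
  generalize L g e2 = a3 at *
  generalize L e2 g = a4 at *
  generalize L e1 e2 = a5 at *
  generalize L e2 e1 = a6 at *
  generalize (g.natDegree : F2) = γ at *
  generalize (e2.natDegree : F2) = δ at *
  generalize ch (-1 : k) = m at *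
  generalize ch c = n at *
  clear * - r1 r2 r3
  revert a1 a2 a3 a4 a5 a6 γ δ m n
  decide

end Pool.Agent.N368.PP
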